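import Pool.Agent.Y628.FS.Det

set_option autoImplicit false

open MeasureTheory ProbabilityTheory Filter Topology Finset
open Pool.Agent.Results.MP_0b8746_pr.SqrtLogUpperBound

namespace Pool.Agent.Y628.FS

section Swap

variable (F : Measure ℝ) [IsProbabilityMeasure F] (m n : ℕ)

/-- Exchanging rows and columns. -/
lemma map_swap : (law F m n).map (fun t (j : Fin m) (i : Fin n) => t i j) =
    Measure.pi (fun _ : Fin m => Measure.pi (fun _ : Fin n => F)) := by
  have h1 : (Measure.pi fun _ : Fin n × Fin m => F).map (MeasurableEquiv.curry (Fin n) (Fin m) ℝ) =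
      law F m n := by
    have := Measure.infinitePi_map_curry (fun (_ : Fin n) (_ : Fin m) => F)
    simp only [Measure.infinitePi_eq_pi] at this
    exact this
  have h2 : (Measure.pi fun _ : Fin m × Fin n => F).map (MeasurableEquiv.curry (Fin m) (Fin n) ℝ) =
      Measure.pi (fun _ : Fin m => Measure.pi (fun _ : Fin n => F)) := by
    have := Measure.infinitePi_map_curry (fun (_ : Fin m) (_ : Fin n) => F)
    simp only [Measure.infinitePi_eq_pi] at this
    exact this
  have h3 : (Measure.pi fun _ : Fin n × Fin m => F).map (fun f (p : Fin m × Fin n) => f p.swap) =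
      Measure.pi (fun _ : Fin m × Fin n => F) := by
    symm
    apply Measure.pi_eq
    intro s hs
    rw [Measure.map_apply (by fun_prop) (MeasurableSet.univ_pi hs)]
    have : (fun (f : Fin n × Fin m → ℝ) (p : Fin m × Fin n) => f p.swap) ⁻¹' Set.pi Set.univ s =
        Set.pi Set.univ (fun q : Fin n × Fin m => s q.swap) := by
      ext f
      simp only [Set.mem_preimage, Set.mem_pi, Set.mem_univ, true_implies]
      constructor
      · intro h q; exact h q.swap
      · intro h p; exact h p.swap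
    rw [this, Measure.pi_pi]
    exact Equiv.prod_comp (Equiv.prodComm (Fin n) (Fin m)) (fun p => F (s p))
  rw [← h1, ← h2, ← h3, Measure.map_map (by fun_prop) (by fun_prop),
    Measure.map_map (by fun_prop) (by fun_prop)]
  rfl

end Swap

/-- The normalized sum. -/
noncomputable def nsum (τ : ℝ) (n : ℕ) (x : Fin n → ℝ) : ℝ := (Real.sqrt n)⁻¹ * (∑ i, (x i - τ))

lemma measurable_nsum (τ : ℝ) (n : ℕ) : Measurable (nsum τ n) := by
  unfold nsum; fun_prop

/-- The law of the normalized sum. -/
noncomputable def nu (F : Measure ℝ) (n : ℕ) : Measure ℝ :=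
  (Measure.pi fun _ : Fin n => F).map (nsum (∫ x, x ∂F) n)

instance (F : Measure ℝ) [IsProbabilityMeasure F] (n : ℕ) : IsProbabilityMeasure (nu F n) :=
  Measure.isProbabilityMeasure_map (measurable_nsum _ _).aemeasurable

/-- The vector of the normalized machine loads. -/
noncomputable def vec (τ : ℝ) {m n : ℕ} (t : Fin n → Fin m → ℝ) (j : Fin m) : ℝ :=
  nsum τ n (fun i => t i j)

lemma measurable_vec (τ : ℝ) {m n : ℕ} : Measurable (vec τ (m := m) (n := n)) := by
  unfold vec
  refine measurable_pi_iff.2 fun j => ?_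
  exact (measurable_nsum τ n).comp (by fun_prop)

lemma map_vec (F : Measure ℝ) [IsProbabilityMeasure F] (m n : ℕ) :
    (law F m n).map (vec (∫ x, x ∂F)) = Measure.pi (fun _ : Fin m => nu F n) := by
  have h : (vec (∫ x, x ∂F) : (Fin n → Fin m → ℝ) → Fin m → ℝ) =
      (fun (s : Fin m → Fin n → ℝ) j => nsum (∫ x, x ∂F) n (s j)) ∘
        (fun t (j : Fin m) (i : Fin n) => t i j) := rfl
  rw [h, ← Measure.map_map ?_ (by fun_prop), map_swap]
  · rw [Measure.pi_map_pi (fun _ => (measurable_nsum _ _).aemeasurable)]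
    rfl
  · refine measurable_pi_iff.2 fun j => ?_
    exact (measurable_nsum _ n).comp (by fun_prop)

/-! ### The central limit theorem -/

section CLT

variable {F : Measure ℝ} [IsProbabilityMeasure F]

lemma charFun_nu (n : ℕ) (t : ℝ) : charFun (nu F n) t =
    (charFun (F.map (fun x => x - ∫ y, y ∂F)) ((Real.sqrt n)⁻¹ * t)) ^ n := by
  set τ := ∫ y, y ∂F with hτ
  have hp : IsProbabilityMeasure (F.map (fun x => x - τ)) :=
    Measure.isProbabilityMeasure_map (by fun_prop)
  have h1 : nu F n = ((Measure.pi fun _ : Fin n => F.map (fun x => x - τ)).map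
      (fun x => ∑ i, x i)).map ((Real.sqrt n)⁻¹ * ·) := by
    unfold nu
    rw [← Measure.pi_map_pi (fun _ => by fun_prop), Measure.map_map (by fun_prop) (by fun_prop),
      Measure.map_map (by fun_prop) (by fun_prop)]
    rfl
  rw [h1, charFun_map_mul, charFun_map_sum_pi_eq_prod]
  simp

lemma charFun_tendsto (hL2 : MemLp (fun x : ℝ => x) 2 F) (hv : 0 < Var[fun x : ℝ => x; F])
    (t : ℝ) : Tendsto (fun n : ℕ => charFun (nu F n) t) atTop
      (𝓝 (charFun (gaussianReal 0 (Var[fun x : ℝ => x; F]).toNNReal) t)) := by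
  set τ := ∫ y, y ∂F with hτ
  set v := Var[fun x : ℝ => x; F] with hvdef
  set σ := Real.sqrt v with hσ
  have hσ0 : 0 < σ := Real.sqrt_pos.2 hv
  have hσ2 : σ ^ 2 = v := Real.sq_sqrt hv.le
  have hid : Integrable (fun x : ℝ => x) F := hL2.integrable (by norm_num)
  have hX : AEMeasurable (fun x : ℝ => σ⁻¹ * (x - τ)) F := by fun_prop
  have h0 : F[fun x : ℝ => σ⁻¹ * (x - τ)] = 0 := by
    rw [integral_const_mul, integral_sub hid (integrable_const _)]
    simp [← hτ]
  have h1 : F[(fun x : ℝ => σ⁻¹ * (x - τ)) ^ 2] = 1 := by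
    have : ∀ x : ℝ, ((fun x : ℝ => σ⁻¹ * (x - τ)) ^ 2) x = (σ ^ 2)⁻¹ * (x - τ) ^ 2 := by
      intro x
      simp only [Pi.pow_apply]
      rw [mul_pow, inv_pow]
    simp_rw [this]
    rw [integral_const_mul, hσ2]
    have h2 : v = ∫ x, (x - τ) ^ 2 ∂F := by
      rw [hvdef, variance_eq_integral (by fun_prop)]
    rw [← h2, inv_mul_cancel₀ hv.ne']
  have key := tendsto_charFun_inv_sqrt_mul_pow hX h0 h1 (σ * t)
  have e1 : ∀ n : ℕ, charFun (nu F n) t =
      (charFun (F.map (fun x : ℝ => σ⁻¹ * (x - τ))) ((Real.sqrt n)⁻¹ * (σ * t))) ^ n := by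
    intro n
    rw [charFun_nu, charFun_map_mul_comp (by fun_prop)]
    congr 2
    field_simp
  simp_rw [e1]
  convert key using 2
  rw [charFun_gaussianReal]
  have : ((v.toNNReal : NNReal) : ℝ) = v := Real.coe_toNNReal v hv.le
  rw [this]
  congr 1
  push_cast
  rw [← hσ2]
  push_cast
  ring

lemma nu_tendsto (hL2 : MemLp (fun x : ℝ => x) 2 F) (hv : 0 < Var[fun x : ℝ => x; F]) :
    Tendsto (β := ProbabilityMeasure ℝ) (fun n : ℕ => ⟨nu F n, inferInstance⟩) atTop
      (𝓝 ⟨gaussianReal 0 (Var[fun x : ℝ => x; F]).toNNReal, inferInstance⟩) := by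
  rw [ProbabilityMeasure.tendsto_iff_tendsto_charFun]
  intro t
  exact charFun_tendsto hL2 hv t

/-- The Gaussian measure on `Fin m → ℝ` with independent coordinates of variance `v`. -/
noncomputable def gam (m : ℕ) (v : NNReal) : Measure (Fin m → ℝ) :=
  Measure.pi fun _ : Fin m => gaussianReal 0 v

instance (m : ℕ) (v : NNReal) : IsProbabilityMeasure (gam m v) := by
  unfold gam; infer_instance

/-- The law of the vector of normalized loads. -/
lemma vec_tendsto (m : ℕ) (hL2 : MemLp (fun x : ℝ => x) 2 F) (hv : 0 < Var[fun x : ℝ => x; F]) :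
    Tendsto (β := ProbabilityMeasure (Fin m → ℝ)) (fun n : ℕ => ⟨(law F m n).map (vec (∫ x, x ∂F)),
        Measure.isProbabilityMeasure_map (measurable_vec _).aemeasurable⟩) atTop
      (𝓝 ⟨gam m (Var[fun x : ℝ => x; F]).toNNReal, inferInstance⟩) := by
  let G : ProbabilityMeasure ℝ := ⟨gaussianReal 0 (Var[fun x : ℝ => x; F]).toNNReal, inferInstance⟩
  let N : ℕ → ProbabilityMeasure ℝ := fun n => ⟨nu F n, inferInstance⟩
  have h : Tendsto N atTop (𝓝 G) := nu_tendsto hL2 hv
  have h2 := (ProbabilityMeasure.continuous_pi (ι := Fin m) (α := fun _ => ℝ)).tendsto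
    (fun _ => G)
  have h3 : Tendsto (fun n : ℕ => (fun _ : Fin m => N n)) atTop (𝓝 (fun _ => G)) :=
    tendsto_pi_nhds.2 fun _ => h
  refine (h2.comp h3).congr fun n => ?_
  apply Subtype.ext
  show Measure.pi (fun _ : Fin m => nu F n) = _
  rw [← map_vec]

end CLT

end Pool.Agent.Y628.FS
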