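import Pool.Agent.Y628.FS.Main

set_option autoImplicit false

open MeasureTheory ProbabilityTheory Filter Topology Finset
open Pool.Agent.Results.MP_0b8746_pr.SqrtLogUpperBound

namespace Pool.Agent.Y628.FS

/-- Explicit bound for bounded operation times. -/
theorem bounded_upper {F : Measure ℝ} (hF : IsTimeLaw F) {K : ℝ} (hFK : ∀ᵐ x ∂F, x ≤ K) {m n : ℕ}
    (hm : 2 ≤ m) (hn : 0 < n)
    (hnm : 2 * K ^ 2 * Real.log m ≤ n * Var[fun x : ℝ => x; F]) :
    expectedError F m n ≤ Real.sqrt (2 * Var[fun x : ℝ => x; F] * n * Real.log m) +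
      2 * K * Real.log m + 5 * K * m ^ 2 := by
  have := hF.prob
  set v := Var[fun x : ℝ => x; F] with hv
  have hv0 : 0 < v := hF.pos
  have hK : 0 ≤ K := by
    have h : ∀ᵐ x ∂F, 0 ≤ K := by
      filter_upwards [hF.nonneg, hFK] with x h1 h2
      linarith
    exact h.exists.choose_spec
  have hmR : (2 : ℝ) ≤ m := by exact_mod_cast hm
  have hnR : (0 : ℝ) < n := by exact_mod_cast hn
  have hlog : 0 < Real.log m := Real.log_pos (by linarith)
  have hw : ∫ x, (hi K x) ^ 2 ∂F = 0 := by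
    rw [integral_congr_ae (g := fun _ => (0 : ℝ))]
    · simp
    · filter_upwards [hFK] with x hx
      unfold hi
      rw [max_eq_right (by linarith)]
      norm_num
  set a := Real.sqrt (2 * v * n * Real.log m) with ha
  have ha0 : 0 < a := Real.sqrt_pos.2 (by positivity)
  have ha2 : a ^ 2 = 2 * v * n * Real.log m := Real.sq_sqrt (by positivity)
  set s := a / (n * v) with hs
  have hs0 : 0 < s := by positivity
  have hsK : s * K ≤ 1 := by
    rw [hs, div_mul_eq_mul_div, div_le_one (by positivity)]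
    apply le_of_sq_le_sq _ (by positivity)
    rw [mul_pow, ha2]
    nlinarith [mul_le_mul_of_nonneg_left hnm (by positivity : 0 ≤ (n : ℝ) * v)]
  have e1 : Real.log m / s = a / 2 := by
    rw [hs, div_div_eq_mul_div, div_eq_div_iff ha0.ne' (by norm_num)]
    have : a * a = 2 * v * n * Real.log m := by rw [← ha2]; ring
    rw [this]; ring
  have e2 : (n : ℝ) * ((s / 2 + s ^ 2 * K) * v) = a / 2 + 2 * K * Real.log m := by
    have h1 : (n : ℝ) * v * s = a := by rw [hs]; field_simp
    have h2 : (n : ℝ) * v * s ^ 2 = 2 * Real.log m := by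
      have : (n : ℝ) * v * s ^ 2 = a ^ 2 / (n * v) := by rw [hs]; field_simp
      rw [this, ha2]; field_simp
    calc (n : ℝ) * ((s / 2 + s ^ 2 * K) * v) = (n * v * s) / 2 + (n * v * s ^ 2) * K := by ring
      _ = _ := by rw [h1, h2]; ring
  have hτ : 0 ≤ ∫ x, x ∂F := integral_nonneg_of_ae hF.nonneg
  rw [expectedError_eq hF]
  have key : ∀ l : ℝ, 0 < l → ∫ t, optMakespan t ∂(law F m n) ≤ n * (∫ x, x ∂F) +
      (a + 2 * K * Real.log m + 5 * K * m ^ 2) + l := by
    intro l hl
    have hC : 0 < 1 + 5 * (m : ℝ) ^ 2 := by positivity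
    have h := mean_opt_le (F := F) (K := K) (s := s) (l := l / (1 + 5 * m ^ 2)) (n := n) (m := m) hK
      hs0 hsK (by positivity) hn (by omega) hF.memLp hF.nonneg
    rw [hw, e1, e2] at h
    simp only [mul_zero, zero_div, add_zero] at h
    have h2 : l / (1 + 5 * (m : ℝ) ^ 2) + 5 * m ^ 2 * (K + l / (1 + 5 * (m : ℝ) ^ 2)) =
        5 * K * m ^ 2 + l := by
      field_simp
      ring
    linarith
  have h3 := le_of_forall_pos_le_add key
  have e8 : 0 ≤ ((m : ℝ) - 1) * ∫ x, x ∂F := mul_nonneg (by linarith) hτ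
  have e7 : ((n : ℝ) + m - 1) * ∫ x, x ∂F = n * (∫ x, x ∂F) + ((m : ℝ) - 1) * ∫ x, x ∂F := by ring
  linarith

lemma log_small (ε : ℝ) (hε : 0 < ε) : ∀ᶠ m : ℕ in atTop, Real.log m ≤ ε * Real.sqrt m := by
  have h1 := Real.isLittleO_log_id_atTop.def (show 0 < ε / 2 by positivity)
  have h2 : Tendsto (fun m : ℕ => Real.sqrt m) atTop atTop :=
    Real.tendsto_sqrt_atTop.comp tendsto_natCast_atTop_atTop
  filter_upwards [h2.eventually h1, eventually_ge_atTop 1] with m hm hm1
  have hmR : (1 : ℝ) ≤ m := by exact_mod_cast hm1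
  have hs : 1 ≤ Real.sqrt m := by
    apply Real.le_sqrt_of_sq_le
    rw [one_pow]; linarith
  have h3 : Real.log (Real.sqrt m) = Real.log m / 2 := Real.log_sqrt (by linarith)
  simp only [id_eq] at hm
  rw [Real.norm_of_nonneg (Real.log_nonneg hs), Real.norm_of_nonneg (by linarith), h3] at hm
  linarith

/-- The conjectured bound fails for all large `m`, for all large `n`. -/
theorem fails {F : Measure ℝ} (hF : IsTimeLaw F) (c : ℝ) (hc : 0 < c) :
    ∃ m₀ : ℕ, ∀ m ≥ m₀, ∃ n₀ : ℕ, ∀ n ≥ n₀, expectedError F m n < c * Real.sqrt (m * n) := by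
  set v := Var[fun x : ℝ => x; F] with hv
  have hv0 : 0 < v := hF.pos
  obtain ⟨M, hM⟩ := eventually_atTop.1 (log_small (c ^ 2 / (4 * v)) (by positivity))
  refine ⟨max M 2, fun m hm => ?_⟩
  have hm2 : 2 ≤ m := (le_max_right _ _).trans hm
  have hmR : (2 : ℝ) ≤ m := by exact_mod_cast hm2
  have h1 := hM m ((le_max_left _ _).trans hm)
  have hlog : 0 < Real.log m := Real.log_pos (by linarith)
  have hsm : Real.sqrt m ≤ m := by
    rw [Real.sqrt_le_left (by linarith)]
    nlinarith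
  have h2 : Real.sqrt v * gmax m < c * Real.sqrt m := by
    have h3 := gmax_upper hm2
    have h4 : Real.sqrt v * gmax m ≤ Real.sqrt v * Real.sqrt (2 * Real.log m) :=
      mul_le_mul_of_nonneg_left h3 (Real.sqrt_nonneg _)
    refine h4.trans_lt ?_
    rw [← Real.sqrt_mul hv0.le]
    have h5 : c * Real.sqrt m = Real.sqrt (c ^ 2 * m) := by
      rw [Real.sqrt_mul (by positivity), Real.sqrt_sq hc.le]
    rw [h5]
    apply Real.sqrt_lt_sqrt (by positivity)
    have h6 : v * (2 * Real.log m) ≤ v * (2 * (c ^ 2 / (4 * v) * m)) := by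
      gcongr
      exact h1.trans (mul_le_mul_of_nonneg_left hsm (by positivity))
    have h7 : v * (2 * (c ^ 2 / (4 * v) * m)) = c ^ 2 * m / 2 := by field_simp; ring
    have h8 : 0 < c ^ 2 * m := by positivity
    linarith
  have h3 := (mean_limit hF (m := m) (by omega)).eventually (gt_mem_nhds h2)
  obtain ⟨N, hN⟩ := eventually_atTop.1 h3
  refine ⟨max N 1, fun n hn => ?_⟩
  have h4 := hN n ((le_max_left _ _).trans hn)
  have hn1 : 1 ≤ n := (le_max_right _ _).trans hn
  have hs : 0 < Real.sqrt n := Real.sqrt_pos.2 (by exact_mod_cast hn1)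
  have h5 : expectedError F m n / Real.sqrt n < c * Real.sqrt m := h4
  rw [div_lt_iff₀ hs] at h5
  rw [Real.sqrt_mul (Nat.cast_nonneg m), ← mul_assoc]
  exact h5

/-- For bounded operation times the conjectured bound fails for all large `m` as soon as `n` is at
least a constant times `m ^ 3`. -/
theorem fails_bounded {F : Measure ℝ} (hF : IsTimeLaw F) {K : ℝ} (hFK : ∀ᵐ x ∂F, x ≤ K) (c : ℝ)
    (hc : 0 < c) : ∃ (m₀ : ℕ) (A : ℝ), ∀ m ≥ m₀, ∀ n : ℕ, A * m ^ 3 ≤ n →
      expectedError F m n < c * Real.sqrt (m * n) := by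
  set v := Var[fun x : ℝ => x; F] with hv
  have hv0 : 0 < v := hF.pos
  have hK : 0 ≤ K := by
    have := hF.prob
    have h : ∀ᵐ x ∂F, 0 ≤ K := by
      filter_upwards [hF.nonneg, hFK] with x h1 h2
      linarith
    exact h.exists.choose_spec
  -- thresholds for the logarithm
  obtain ⟨M1, hM1⟩ := eventually_atTop.1 (log_small (c ^ 2 / (32 * v)) (by positivity))
  obtain ⟨M2, hM2⟩ := eventually_atTop.1 (log_small (c / (8 * (K + 1))) (by positivity))
  obtain ⟨M3, hM3⟩ := eventually_atTop.1 (log_small (v / (2 * (K ^ 2 + 1))) (by positivity))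
  refine ⟨max (max M1 M2) (max M3 2), (20 * K / c) ^ 2 + 1, fun m hm n hn => ?_⟩
  have hm1 := hM1 m ((le_max_left _ _).trans ((le_max_left _ _).trans hm))
  have hm2 := hM2 m ((le_max_right _ _).trans ((le_max_left _ _).trans hm))
  have hm3 := hM3 m ((le_max_left _ _).trans ((le_max_right _ _).trans hm))
  have hm4 : 2 ≤ m := (le_max_right _ _).trans ((le_max_right _ _).trans hm)
  have hmR : (2 : ℝ) ≤ m := by exact_mod_cast hm4
  have hlog : 0 < Real.log m := Real.log_pos (by linarith)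
  set q := Real.sqrt m with hq
  have hq2 : q ^ 2 = m := Real.sq_sqrt (by linarith)
  have hq0 : 0 < q := Real.sqrt_pos.2 (by linarith)
  have hq1 : 1 ≤ q := by
    rw [hq]
    apply Real.le_sqrt_of_sq_le
    rw [one_pow]; linarith
  have hnm3 : (m : ℝ) ^ 3 ≤ n := by
    refine le_trans ?_ hn
    have : 0 ≤ (20 * K / c) ^ 2 * (m : ℝ) ^ 3 := by positivity
    nlinarith
  have hm13 : (1 : ℝ) ≤ (m : ℝ) ^ 3 := one_le_pow₀ (by linarith)
  have hn1 : (1 : ℝ) ≤ n := by linarith
  have hn0 : 0 < n := by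
    have : (0 : ℝ) < n := by linarith
    exact_mod_cast this
  set r := Real.sqrt n with hr
  have hr2 : r ^ 2 = n := Real.sq_sqrt (by linarith)
  have hr1 : 1 ≤ r := by
    rw [hr]
    apply Real.le_sqrt_of_sq_le
    rw [one_pow]; linarith
  have hsm : q ≤ m := by rw [← hq2]; nlinarith
  have hmn : (m : ℝ) ≤ n := by
    have : (m : ℝ) ≤ (m : ℝ) ^ 3 := by nlinarith [sq_nonneg ((m : ℝ) - 1)]
    linarith
  -- the hypothesis of the explicit bound
  have hcond : 2 * K ^ 2 * Real.log m ≤ n * v := by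
    have h1 : 2 * K ^ 2 * Real.log m ≤ 2 * K ^ 2 * (v / (2 * (K ^ 2 + 1)) * q) := by gcongr
    have h2 : 2 * K ^ 2 * (v / (2 * (K ^ 2 + 1)) * q) = (K ^ 2 / (K ^ 2 + 1)) * (v * q) := by
      field_simp
    have h3 : (K ^ 2 / (K ^ 2 + 1)) * (v * q) ≤ 1 * (v * q) := by
      gcongr
      rw [div_le_one (by positivity)]; linarith
    have h4 : v * q ≤ v * n := by gcongr; linarith
    linarith
  have hb := bounded_upper hF hFK hm4 hn0 hcond
  rw [← hv] at hb
  -- the three terms
  have hqr : Real.sqrt (m * n) = q * r := by rw [hq, hr, Real.sqrt_mul (by linarith)]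
  rw [hqr]
  have t1 : Real.sqrt (2 * v * n * Real.log m) ≤ c / 4 * (q * r) := by
    rw [Real.sqrt_le_left (by positivity)]
    have h1 : 2 * v * n * Real.log m ≤ 2 * v * n * (c ^ 2 / (32 * v) * q) := by gcongr
    have h2 : 2 * v * n * (c ^ 2 / (32 * v) * q) = c ^ 2 / 16 * q * n := by field_simp; ring
    have h3 : c ^ 2 / 16 * q * n ≤ c ^ 2 / 16 * m * n := by gcongr
    have h4 : (c / 4 * (q * r)) ^ 2 = c ^ 2 / 16 * m * n := by
      rw [mul_pow, mul_pow, hq2, hr2]; ring
    linarith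
  have t2 : 2 * K * Real.log m ≤ c / 4 * (q * r) := by
    have h1 : 2 * K * Real.log m ≤ 2 * K * (c / (8 * (K + 1)) * q) := by gcongr
    have h2 : 2 * K * (c / (8 * (K + 1)) * q) = c / 4 * (K / (K + 1)) * q := by field_simp; ring
    have h3 : c / 4 * (K / (K + 1)) * q ≤ c / 4 * 1 * q := by
      gcongr
      rw [div_le_one (by positivity)]; linarith
    have h4 : c / 4 * 1 * q ≤ c / 4 * (q * r) := by nlinarith [mul_pos hc hq0]
    linarith
  have t3 : 5 * K * m ^ 2 ≤ c / 4 * (q * r) := by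
    have h1 : 20 * K / c * q ^ 3 ≤ r := by
      rw [hr]
      apply Real.le_sqrt_of_sq_le
      have h2 : (20 * K / c * q ^ 3) ^ 2 = (20 * K / c) ^ 2 * (m : ℝ) ^ 3 := by
        rw [mul_pow, ← hq2]; ring
      rw [h2]
      have h3 : (0 : ℝ) ≤ (m : ℝ) ^ 3 := by positivity
      linarith
    have h4 : 5 * K * (m : ℝ) ^ 2 = c / 4 * (q * (20 * K / c * q ^ 3)) := by
      rw [← hq2]; field_simp; ring
    rw [h4]
    gcongr
  have hpos : 0 < c * (q * r) := by positivity
  linarith

end Pool.Agent.Y628.FS
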