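import Pool.Agent.Results.MP_0b8746_pr.SqrtLogUpperBound

set_option autoImplicit false

open MeasureTheory ProbabilityTheory Filter Topology Finset
open Pool.Agent.Results.MP_0b8746_pr.SqrtLogUpperBound

namespace Pool.Agent.Y628.FS

/-! ### The machine loads bound the makespan from below -/

lemma completion_ge (T : ℕ → ℕ → ℝ) (hT : ∀ i j, 0 ≤ T i j) (n j : ℕ) :
    ∑ k ∈ range n, T k j ≤ completion T n (j + 1) := by
  induction n with
  | zero => rw [completion_zero]; simp
  | succ n ih =>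
    rw [completion_succ, sum_range_succ]
    have := le_max_left (completion T n (j + 1)) (completion T (n + 1) j)
    linarith

lemma completion_mono_right (T : ℕ → ℕ → ℝ) (hT : ∀ i j, 0 ≤ T i j) (n j : ℕ) :
    completion T n j ≤ completion T n (j + 1) := by
  cases n with
  | zero => rw [completion_zero, completion_zero]
  | succ n =>
    rw [completion_succ]
    have h1 := le_max_right (completion T n (j + 1)) (completion T (n + 1) j)
    have h2 := hT n j
    linarith

lemma completion_mono (T : ℕ → ℕ → ℝ) (hT : ∀ i j, 0 ≤ T i j) (n : ℕ) {a b : ℕ} (h : a ≤ b) :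
    completion T n a ≤ completion T n b := by
  induction h with
  | refl => exact le_rfl
  | step _ ih => exact ih.trans (completion_mono_right T hT n _)

/-- The load of a machine is at most the makespan of every schedule. -/
lemma load_le_makespan {n m : ℕ} {t : Fin n → Fin m → ℝ} (ht : ∀ i j, 0 ≤ t i j)
    (π : Equiv.Perm (Fin n)) (j : Fin m) : ∑ i, t i j ≤ makespan t π := by
  have hT := ordered_nonneg ht π
  have h1 := completion_ge (ordered t π) hT n j
  have h2 := completion_mono (ordered t π) hT n (show (j : ℕ) + 1 ≤ m from j.2)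
  have h3 : ∑ k ∈ range n, ordered t π k j = ∑ i, t i j := by
    rw [← Fin.sum_univ_eq_sum_range (fun k => ordered t π k j) n]
    have : ∀ i : Fin n, ordered t π i j = t (π i) j := by
      intro i
      simp [ordered]
    rw [sum_congr rfl fun i _ => this i]
    exact Equiv.sum_comp π (fun i => t i j)
  unfold makespan
  linarith

lemma load_le_opt {n m : ℕ} {t : Fin n → Fin m → ℝ} (ht : ∀ i j, 0 ≤ t i j) (j : Fin m) :
    ∑ i, t i j ≤ optMakespan t :=
  le_ciInf fun π => load_le_makespan ht π j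

/-- The largest machine load. -/
noncomputable def maxLoad {n m : ℕ} (t : Fin n → Fin m → ℝ) : ℝ := ⨆ j, ∑ i, t i j

lemma load_le_maxLoad {n m : ℕ} (t : Fin n → Fin m → ℝ) (j : Fin m) :
    ∑ i, t i j ≤ maxLoad t := le_ciSup (Set.finite_range fun j => ∑ i, t i j).bddAbove j

lemma maxLoad_le_opt {n m : ℕ} (hm : 0 < m) {t : Fin n → Fin m → ℝ} (ht : ∀ i j, 0 ≤ t i j) :
    maxLoad t ≤ optMakespan t := by
  have : Nonempty (Fin m) := ⟨⟨0, hm⟩⟩
  exact ciSup_le fun j => load_le_opt ht j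

lemma measurable_maxLoad {n m : ℕ} : Measurable (fun t : Fin n → Fin m → ℝ => maxLoad t) := by
  unfold maxLoad
  refine Measurable.iSup fun j => ?_
  fun_prop

/-- Sevastyanov's bound with the excess over the largest load. -/
lemma opt_le_maxLoad {n m : ℕ} (hn : 0 < n) (hm : 0 < m) {t : Fin n → Fin m → ℝ}
    (ht : ∀ i j, 0 ≤ t i j) {K l : ℝ} (hK : 0 ≤ K) (hl : 0 < l) :
    optMakespan t ≤ maxLoad t +
      5 * m ^ 2 * (K + (l + (∑ i, ∑ j, (hi K (t i j)) ^ 2) / (4 * l))) := by
  obtain ⟨j0, i1, j1, h⟩ := opt_le hn hm t ht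
  have h1 := load_le_maxLoad t j0
  have amgm : ∀ y : ℝ, y ≤ l + y ^ 2 / (4 * l) := by
    intro y
    have : y * (4 * l) ≤ l * (4 * l) + y ^ 2 := by nlinarith [sq_nonneg (y - 2 * l)]
    have h2 : l + y ^ 2 / (4 * l) = (l * (4 * l) + y ^ 2) / (4 * l) := by field_simp
    rw [h2, le_div_iff₀ (by positivity)]; exact this
  have hM : t i1 j1 ≤ K + (l + (∑ i, ∑ j, (hi K (t i j)) ^ 2) / (4 * l)) := by
    have h1 : t i1 j1 ≤ K + hi K (t i1 j1) := by
      have := le_max_left (t i1 j1 - K) 0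
      unfold hi; linarith
    have h2 := amgm (hi K (t i1 j1))
    have h3 : (hi K (t i1 j1)) ^ 2 ≤ ∑ i, ∑ j, (hi K (t i j)) ^ 2 := by
      refine le_trans ?_ (single_le_sum (f := fun i => ∑ j, (hi K (t i j)) ^ 2)
        (fun i _ => sum_nonneg fun j _ => sq_nonneg _) (mem_univ i1))
      exact single_le_sum (f := fun j => (hi K (t i1 j)) ^ 2) (fun j _ => sq_nonneg _) (mem_univ j1)
    have h4 : (hi K (t i1 j1)) ^ 2 / (4 * l) ≤ (∑ i, ∑ j, (hi K (t i j)) ^ 2) / (4 * l) := by gcongr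
    linarith
  have h5 : 5 * (m : ℝ) ^ 2 * t i1 j1 ≤ 5 * m ^ 2 * (K + (l + (∑ i, ∑ j, (hi K (t i j)) ^ 2) / (4 * l))) :=
    mul_le_mul_of_nonneg_left hM (by positivity)
  linarith

section Prob

variable {F : Measure ℝ} [IsProbabilityMeasure F] {m n : ℕ}

/-- The excess of the optimal makespan over the largest load. -/
noncomputable def excess {n m : ℕ} (t : Fin n → Fin m → ℝ) : ℝ := optMakespan t - maxLoad t

lemma integrable_maxLoad (hm : 0 < m) (h : ∀ᵐ x ∂F, 0 ≤ x) (hi : Integrable (fun x : ℝ => x) F) :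
    Integrable (fun t : Fin n → Fin m → ℝ => maxLoad t) (law F m n) := by
  refine (integrable_opt h hi).mono' measurable_maxLoad.aestronglyMeasurable ?_
  filter_upwards [ae_nonneg h] with t ht
  have h0 : 0 ≤ maxLoad t :=
    le_trans (sum_nonneg fun i _ => ht i ⟨0, hm⟩) (load_le_maxLoad t ⟨0, hm⟩)
  rw [Real.norm_of_nonneg h0]
  exact maxLoad_le_opt hm ht

lemma integrable_excess (hm : 0 < m) (h : ∀ᵐ x ∂F, 0 ≤ x) (hi : Integrable (fun x : ℝ => x) F) :
    Integrable (fun t : Fin n → Fin m → ℝ => excess t) (law F m n) :=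
  (integrable_opt h hi).sub (integrable_maxLoad hm h hi)

lemma excess_nonneg (hm : 0 < m) (h : ∀ᵐ x ∂F, 0 ≤ x) :
    ∀ᵐ t ∂(law F m n), 0 ≤ excess t := by
  filter_upwards [ae_nonneg h] with t ht
  unfold excess
  have := maxLoad_le_opt hm ht
  linarith

lemma integral_excess_le {K l : ℝ} (hK : 0 ≤ K) (hl : 0 < l) (hn : 0 < n) (hm : 0 < m)
    (hL2 : MemLp (fun x : ℝ => x) 2 F) (hF : ∀ᵐ x ∂F, 0 ≤ x) :
    ∫ t : Fin n → Fin m → ℝ, excess t ∂(law F m n) ≤
      5 * m ^ 2 * (K + (l + m * n * (∫ x, (hi K x) ^ 2 ∂F) / (4 * l))) := by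
  have hid : Integrable (fun x : ℝ => x) F := hL2.integrable (by norm_num)
  have hh2 : Integrable (fun x => (hi K x) ^ 2) F := (hi_memLp hL2 hK).integrable_sq
  have i3' : Integrable (fun t : Fin n → Fin m → ℝ => ∑ i, ∑ j, (hi K (t i j)) ^ 2) (law F m n) :=
    integrable_finsetSum _ fun i _ => integrable_finsetSum _ fun j _ => integrable_eval hh2 i j
  have i3d : Integrable (fun t : Fin n → Fin m → ℝ => l + (∑ i, ∑ j, (hi K (t i j)) ^ 2) / (4 * l))
      (law F m n) := (integrable_const _).add (i3'.div_const _)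
  have i3e : Integrable (fun t : Fin n → Fin m → ℝ => K + (l + (∑ i, ∑ j, (hi K (t i j)) ^ 2) / (4 * l)))
      (law F m n) := (integrable_const _).add i3d
  have i3s : Integrable (fun t : Fin n → Fin m → ℝ => 5 * (m : ℝ) ^ 2 * (K + (l + (∑ i, ∑ j, (hi K (t i j)) ^ 2) / (4 * l))))
      (law F m n) := i3e.const_mul _
  have e3 : ∫ t : Fin n → Fin m → ℝ, 5 * (m : ℝ) ^ 2 * (K + (l + (∑ i, ∑ j, (hi K (t i j)) ^ 2) / (4 * l))) ∂(law F m n) =
      5 * m ^ 2 * (K + (l + m * n * (∫ x, (hi K x) ^ 2 ∂F) / (4 * l))) := by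
    rw [integral_const_mul, integral_add (integrable_const _) i3d,
      integral_add (integrable_const _) (i3'.div_const _), integral_div,
      integral_finsetSum _ fun i _ => integrable_finsetSum _ fun j _ => integrable_eval hh2 i j]
    have h1 : ∀ i : Fin n, ∫ t : Fin n → Fin m → ℝ, ∑ j, (hi K (t i j)) ^ 2 ∂(law F m n) =
        m * ∫ x, (hi K x) ^ 2 ∂F := by
      intro i
      rw [integral_finsetSum _ fun j _ => integrable_eval hh2 i j]
      have h2 : ∀ j : Fin m, ∫ t : Fin n → Fin m → ℝ, (hi K (t i j)) ^ 2 ∂(law F m n) =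
          ∫ x, (hi K x) ^ 2 ∂F := fun j =>
        integral_eval (g := fun x => (hi K x) ^ 2) hh2.aestronglyMeasurable i j
      rw [sum_congr rfl fun j _ => h2 j]; simp
    rw [sum_congr rfl fun i _ => h1 i]
    simp only [integral_const, probReal_univ, smul_eq_mul, one_mul, sum_const, card_univ, Fintype.card_fin,
      nsmul_eq_mul]
    ring
  rw [← e3]
  refine integral_mono_ae (integrable_excess hm hF hid) i3s ?_
  filter_upwards [ae_nonneg hF] with t ht
  have := opt_le_maxLoad hn hm ht hK hl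
  show optMakespan t - maxLoad t ≤ _
  linarith

/-- The mean excess is `o(√n)`. -/
lemma excess_small (hL2 : MemLp (fun x : ℝ => x) 2 F) (hF : ∀ᵐ x ∂F, 0 ≤ x) (hm : 0 < m) (ε : ℝ)
    (hε : 0 < ε) : ∃ N : ℕ, ∀ n ≥ N, ∫ t : Fin n → Fin m → ℝ, excess t ∂(law F m n) ≤
      ε * Real.sqrt n := by
  have hmR : (1 : ℝ) ≤ m := by exact_mod_cast hm
  set C : ℝ := 5 * m ^ 2 with hC
  have hC0 : 0 < C := by positivity
  set δ := ε / (4 * C) with hδ
  have hδ0 : 0 < δ := by positivity
  obtain ⟨K, hK, hw⟩ := exists_K (F := F) hL2 (η := 4 * δ ^ 2 / m) (by positivity)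
  set w := ∫ x, (hi K x) ^ 2 ∂F with hwdef
  set X := 1 + 2 * (C * K) / ε with hX
  obtain ⟨N, hN⟩ := exists_nat_ge (X ^ 2)
  refine ⟨N, fun n hn => ?_⟩
  have hX1 : 1 ≤ X := by
    have h2 : 0 ≤ 2 * (C * K) / ε := by positivity
    linarith
  have hnX : X ≤ Real.sqrt n := by
    apply Real.le_sqrt_of_sq_le
    have : (N : ℝ) ≤ n := by exact_mod_cast hn
    linarith
  set r := Real.sqrt n with hr
  have hr0 : 0 < r := by linarith
  have hr2 : r ^ 2 = n := Real.sq_sqrt (Nat.cast_nonneg n)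
  have hnpos : 0 < n := by
    have : (0:ℝ) < n := by rw [← hr2]; positivity
    exact_mod_cast this
  have hmain := integral_excess_le (F := F) (K := K) (l := δ * r) (n := n) (m := m) hK
    (by positivity) hnpos hm hL2 hF
  rw [← hwdef] at hmain
  have e3 : (m : ℝ) * n * w / (4 * (δ * r)) ≤ δ * r := by
    rw [div_le_iff₀ (by positivity), ← hr2]
    have h1 : (m : ℝ) * w ≤ 4 * δ ^ 2 := by
      rw [le_div_iff₀ (by linarith)] at hw; linarith
    have h2 : (m : ℝ) * w * r ^ 2 ≤ 4 * δ ^ 2 * r ^ 2 := mul_le_mul_of_nonneg_right h1 (sq_nonneg r)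
    nlinarith
  have e4 : C * K ≤ ε * r / 2 := by
    have h1 : 2 * (C * K) / ε ≤ r := by linarith
    rw [div_le_iff₀ hε] at h1
    linarith
  have e5 : C * (2 * (δ * r)) = ε * r / 2 := by rw [hδ]; field_simp; norm_num
  have e6 : C * (K + (δ * r + m * n * w / (4 * (δ * r)))) ≤ C * (K + (δ * r + δ * r)) := by
    gcongr
  have e7 : C * (K + (δ * r + δ * r)) = C * K + C * (2 * (δ * r)) := by ring
  linarith

end Prob

end Pool.Agent.Y628.FS
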