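import Pool.Agent.Y628.FS.Mean

set_option autoImplicit false

open MeasureTheory ProbabilityTheory Filter Topology Finset

namespace Pool.Agent.Y628.FS

/-- The expected maximum of `m` independent standard normal variables. -/
noncomputable def gmax (m : ℕ) : ℝ := ∫ g : Fin m → ℝ, (⨆ j, g j) ∂(gam m 1)

lemma gaussian_memLp (v : NNReal) : MemLp (fun x : ℝ => x) 2 (gaussianReal 0 v) :=
  memLp_id_gaussianReal 2

lemma gaussian_sq (v : NNReal) : ∫ x, x ^ 2 ∂(gaussianReal 0 v) = v := by
  have h := variance_fun_id_gaussianReal (μ := 0) (v := v)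
  rw [variance_eq_integral (by fun_prop)] at h
  simp only [integral_id_gaussianReal, sub_zero] at h
  exact h

lemma gam_sq (m : ℕ) (v : NNReal) :
    Integrable (fun x : Fin m → ℝ => ∑ j, x j ^ 2) (gam m v) ∧
      ∫ x : Fin m → ℝ, ∑ j, x j ^ 2 ∂(gam m v) = m * v :=
  pi_moment (gaussian_memLp v) (gaussian_sq v)

lemma gam_int (m : ℕ) [Nonempty (Fin m)] (v : NNReal) :
    Integrable (fun x : Fin m → ℝ => ⨆ j, x j) (gam m v) :=
  (top_cut (gam_sq m v).1 (gam_sq m v).2 one_pos).1

lemma gam_scale (m : ℕ) (v : NNReal) :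
    gam m v = (gam m 1).map (fun g j => Real.sqrt v * g j) := by
  unfold gam
  rw [Measure.pi_map_pi (fun _ => by fun_prop)]
  congr 1
  funext _
  rw [gaussianReal_map_const_mul]
  congr 1
  · simp
  · ext
    simp

lemma top_scale {m : ℕ} [Nonempty (Fin m)] {a : ℝ} (ha : 0 ≤ a) (x : Fin m → ℝ) :
    (⨆ j, a * x j) = a * ⨆ j, x j := (Real.mul_iSup_of_nonneg ha x).symm

lemma gam_top (m : ℕ) [Nonempty (Fin m)] (v : NNReal) :
    ∫ g : Fin m → ℝ, (⨆ j, g j) ∂(gam m v) = Real.sqrt v * gmax m := by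
  rw [gam_scale, integral_map (measurable_pi_iff.2 fun j =>
    (measurable_pi_apply j).const_mul _).aemeasurable
    continuous_top.measurable.aestronglyMeasurable]
  unfold gmax
  rw [← integral_const_mul]
  refine integral_congr_ae (ae_of_all _ fun x => ?_)
  exact top_scale (Real.sqrt_nonneg _) x

/-! ### Lower bound for the expected maximum -/

/-- Tail of the normal distribution. -/
lemma tail_ge {x : ℝ} (hx : 0 ≤ x) :
    Real.exp (-(x + 1) ^ 2 / 2) / 3 ≤ (gaussianReal 0 1).real (Set.Ici x) := by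
  have h1 : (gaussianReal 0 1).real (Set.Icc x (x + 1)) ≤ (gaussianReal 0 1).real (Set.Ici x) :=
    measureReal_mono Set.Icc_subset_Ici_self
  refine le_trans ?_ h1
  have h2 : (gaussianReal 0 1).real (Set.Icc x (x + 1)) =
      ∫ y in Set.Icc x (x + 1), gaussianPDFReal 0 1 y := by
    rw [measureReal_def, gaussianReal_apply_eq_integral 0 one_ne_zero, ENNReal.toReal_ofReal]
    exact setIntegral_nonneg measurableSet_Icc fun y _ => gaussianPDFReal_nonneg 0 1 y
  rw [h2]
  have hpi : Real.sqrt (2 * Real.pi) ≤ 3 := by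
    rw [Real.sqrt_le_left (by norm_num)]
    nlinarith [Real.pi_lt_four]
  have h3 : ∀ y ∈ Set.Icc x (x + 1), Real.exp (-(x + 1) ^ 2 / 2) / 3 ≤ gaussianPDFReal 0 1 y := by
    intro y hy
    unfold gaussianPDFReal
    simp only [NNReal.coe_one, mul_one, sub_zero]
    have hs : 0 < Real.sqrt (2 * Real.pi) := Real.sqrt_pos.2 (by positivity)
    have e1 : Real.exp (-(x + 1) ^ 2 / 2) ≤ Real.exp (-y ^ 2 / 2) := by
      apply Real.exp_le_exp.2
      have := hy.1; have := hy.2
      nlinarith
    have e2 : (3 : ℝ)⁻¹ ≤ (Real.sqrt (2 * Real.pi))⁻¹ := inv_anti₀ hs hpi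
    have e3 := Real.exp_pos (-(x + 1) ^ 2 / 2)
    calc Real.exp (-(x + 1) ^ 2 / 2) / 3 = (3 : ℝ)⁻¹ * Real.exp (-(x + 1) ^ 2 / 2) := by ring
      _ ≤ (Real.sqrt (2 * Real.pi))⁻¹ * Real.exp (-y ^ 2 / 2) :=
          mul_le_mul e2 e1 e3.le (by positivity)
  have h4 := setIntegral_mono_on (μ := volume) (s := Set.Icc x (x + 1))
    (f := fun _ => Real.exp (-(x + 1) ^ 2 / 2) / 3) (g := gaussianPDFReal 0 1)
    (by simp) (integrable_gaussianPDFReal 0 1).integrableOn measurableSet_Icc h3
  simpa using h4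

lemma gmax_mono_pos {m : ℕ} (hm : 2 ≤ m) : gmax 2 ≤ gmax m := by
  have : Nonempty (Fin m) := ⟨⟨0, by omega⟩⟩
  have h1 : gmax 2 = ∫ g : Fin m → ℝ, (⨆ j : Fin 2, g (Fin.castLE hm j)) ∂(gam m 1) := by
    have hmp : (gam m 1).map (fun g (j : Fin 2) => g (Fin.castLE hm j)) = gam 2 1 := by
      unfold gam
      symm
      have hind : iIndepFun (fun (i : Fin m) (g : Fin m → ℝ) => g i)
          (Measure.pi fun _ : Fin m => gaussianReal 0 1) :=
        iIndepFun_pi (X := fun _ => id) (fun _ => aemeasurable_id)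
      have hind2 := hind.precomp (g := Fin.castLE hm) (Fin.castLE_injective hm)
      have h3 := (iIndepFun_iff_map_fun_eq_pi_map
        (fun i => (measurable_pi_apply _).aemeasurable)).1 hind2
      rw [h3]
      congr 1
      funext j
      exact (measurePreserving_eval (fun _ : Fin m => gaussianReal 0 1) (Fin.castLE hm j)).map_eq.symm
    unfold gmax
    rw [← hmp, integral_map (measurable_pi_iff.2 fun j => measurable_pi_apply _).aemeasurable
      continuous_top.measurable.aestronglyMeasurable]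
  rw [h1]
  refine integral_mono ?_ (gam_int m 1) fun g => ?_
  · have h2 : Integrable (fun g : Fin m → ℝ => ∑ j, g j ^ 2) (gam m 1) := (gam_sq m 1).1
    refine ((integrable_const (1 : ℝ)).add h2).mono' ?_ (ae_of_all _ fun x => ?_)
    · exact ((continuous_top (m := 2)).comp (by fun_prop :
        Continuous fun (g : Fin m → ℝ) (j : Fin 2) => g (Fin.castLE hm j))).measurable.aestronglyMeasurable
    · obtain ⟨j, hj⟩ := exists_top (fun j : Fin 2 => x (Fin.castLE hm j))
      rw [hj, Real.norm_eq_abs]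
      have h3 : x (Fin.castLE hm j) ^ 2 ≤ ∑ j, x j ^ 2 :=
        single_le_sum (f := fun j => x j ^ 2) (fun j _ => sq_nonneg _) (mem_univ _)
      simp only [Pi.add_apply]
      nlinarith [sq_nonneg (|x (Fin.castLE hm j)| - 1), sq_abs (x (Fin.castLE hm j))]
  · exact ciSup_le fun j => le_top g _

lemma gmax_two_pos : 0 < gmax 2 := by
  have hint : ∀ j : Fin 2, Integrable (fun g : Fin 2 → ℝ => g j) (gam 2 1) := fun j =>
    (measurePreserving_eval (fun _ : Fin 2 => gaussianReal 0 1) j).integrable_comp_of_integrable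
      ((gaussian_memLp 1).integrable (by norm_num))
  have hz : ∀ j : Fin 2, ∫ g : Fin 2 → ℝ, g j ∂(gam 2 1) = 0 := by
    intro j
    have h := measurePreserving_eval (fun _ : Fin 2 => gaussianReal 0 1) j
    have := integral_map (μ := Measure.pi fun _ : Fin 2 => gaussianReal 0 1)
      h.measurable.aemeasurable (f := fun x => x) (by fun_prop)
    rw [h.map_eq, integral_id_gaussianReal] at this
    exact this.symm
  have h1 : gmax 2 = ∫ g : Fin 2 → ℝ, ((⨆ j, g j) - g 0) ∂(gam 2 1) := by
    rw [integral_sub (gam_int 2 1) (hint 0), hz, sub_zero]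
    rfl
  rw [h1, integral_pos_iff_support_of_nonneg]
  · -- the set where `g 0 < g 1`
    have hsub : Set.pi Set.univ (fun j : Fin 2 => if j = 0 then Set.Iio (0 : ℝ) else Set.Ioi 0) ⊆
        Function.support (fun g : Fin 2 → ℝ => (⨆ j, g j) - g 0) := by
      intro g hg
      have a0 : g 0 < 0 := by simpa using hg 0 (Set.mem_univ _)
      have a1 : 0 < g 1 := by simpa using hg 1 (Set.mem_univ _)
      have := le_top g 1
      rw [Function.mem_support]
      linarith
    refine lt_of_lt_of_le ?_ (measure_mono hsub)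
    unfold gam
    rw [Measure.pi_pi]
    refine CanonicallyOrderedAdd.prod_pos.2 fun j _ => ?_
    have hpos : ∀ U : Set ℝ, IsOpen U → U.Nonempty → 0 < gaussianReal 0 1 U := by
      intro U hU hne
      have : (gaussianReal 0 (1 : NNReal)).IsOpenPosMeasure := by
        refine ⟨fun V hV hVne h0 => ?_⟩
        have h2 := gaussianReal_absolutelyContinuous' 0 (one_ne_zero : (1 : NNReal) ≠ 0) h0
        exact (hV.measure_pos volume hVne).ne' h2
      exact hU.measure_pos _ hne
    split_ifs
    · exact hpos _ isOpen_Iio ⟨-1, by simp⟩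
    · exact hpos _ isOpen_Ioi ⟨1, by simp⟩
  · intro g
    show 0 ≤ (⨆ j, g j) - g 0
    linarith [le_top g 0]
  · exact (gam_int 2 1).sub (hint 0)

end Pool.Agent.Y628.FS
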