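import Pool.Agent.Y628.FS.Gauss

set_option autoImplicit false

open MeasureTheory ProbabilityTheory Filter Topology Finset

namespace Pool.Agent.Y628.FS

lemma gam_real_pi (m : ℕ) (v : NNReal) (s : Set ℝ) :
    (gam m v).real {g : Fin m → ℝ | ∀ j, g j ∈ s} = ((gaussianReal 0 v).real s) ^ m := by
  have h : {g : Fin m → ℝ | ∀ j, g j ∈ s} = Set.pi Set.univ (fun _ => s) := by
    ext g; simp
  rw [h, measureReal_def]
  unfold gam
  rw [Measure.pi_pi]
  simp [measureReal_def]

lemma coord_int {m : ℕ} (j : Fin m) (f : ℝ → ℝ) (hf : Integrable f (gaussianReal 0 1)) :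
    Integrable (fun g : Fin m → ℝ => f (g j)) (gam m 1) ∧
      ∫ g : Fin m → ℝ, f (g j) ∂(gam m 1) = ∫ x, f x ∂(gaussianReal 0 1) := by
  have h := measurePreserving_eval (fun _ : Fin m => gaussianReal 0 1) j
  refine ⟨h.integrable_comp_of_integrable hf, ?_⟩
  have h3 : AEStronglyMeasurable f ((gam m 1).map (fun g : Fin m → ℝ => g j)) := by
    have := hf.aestronglyMeasurable
    rwa [← h.map_eq] at this
  have := integral_map (μ := gam m 1) h.measurable.aemeasurable (f := f) h3
  have h4 : (gam m 1).map (fun g : Fin m → ℝ => g j) = gaussianReal 0 1 := h.map_eq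
  rw [← h4]
  exact this.symm

lemma gmax_ge_tail {m : ℕ} (hm : 0 < m) {x : ℝ} (hx : 0 ≤ x) :
    x * (1 - (1 - (gaussianReal 0 1).real (Set.Ici x)) ^ m) - 1 ≤ gmax m := by
  have : Nonempty (Fin m) := ⟨⟨0, hm⟩⟩
  let j0 : Fin m := ⟨0, hm⟩
  have hS : MeasurableSet {g : Fin m → ℝ | x ≤ ⨆ j, g j} :=
    measurableSet_le measurable_const continuous_top.measurable
  have h1 : (gam m 1).real {g : Fin m → ℝ | x ≤ ⨆ j, g j} =
      1 - (1 - (gaussianReal 0 1).real (Set.Ici x)) ^ m := by
    have hc : {g : Fin m → ℝ | x ≤ ⨆ j, g j} = {g : Fin m → ℝ | ∀ j, g j ∈ Set.Iio x}ᶜ := by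
      ext g
      simp only [Set.mem_setOf_eq, Set.mem_compl_iff, Set.mem_Iio, not_forall, not_lt]
      constructor
      · intro h
        obtain ⟨j, hj⟩ := exists_top g
        exact ⟨j, by rw [← hj]; exact h⟩
      · rintro ⟨j, hj⟩
        exact hj.trans (le_top g j)
    have hm2 : MeasurableSet {g : Fin m → ℝ | ∀ j, g j ∈ Set.Iio x} := by
      have h : {g : Fin m → ℝ | ∀ j, g j ∈ Set.Iio x} = Set.pi Set.univ (fun _ => Set.Iio x) := by
        ext g; simp
      rw [h]
      exact MeasurableSet.univ_pi fun _ => measurableSet_Iio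
    rw [hc, probReal_compl_eq_one_sub hm2, gam_real_pi]
    have h2 : (gaussianReal 0 1).real (Set.Iio x) = 1 - (gaussianReal 0 1).real (Set.Ici x) := by
      rw [← Set.compl_Ici, probReal_compl_eq_one_sub measurableSet_Ici]
    rw [h2]
  have habs := coord_int j0 (fun y => |y|) ((gaussian_memLp 1).integrable (by norm_num)).abs
  have hle1 : ∫ y, |y| ∂(gaussianReal 0 1) ≤ 1 := by
    have h2 : ∫ y, |y| ∂(gaussianReal 0 1) ≤ ∫ y, (1 / 2 + y ^ 2 / 2) ∂(gaussianReal 0 1) := by
      refine integral_mono ((gaussian_memLp 1).integrable (by norm_num)).abs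
        ((integrable_const _).add ((gaussian_memLp 1).integrable_sq.div_const _)) fun y => ?_
      have := sq_nonneg (|y| - 1)
      have h3 := sq_abs y
      show |y| ≤ 1 / 2 + y ^ 2 / 2
      nlinarith
    have h3 : ∫ y, y ^ 2 / 2 ∂(gaussianReal 0 1) = 1 / 2 := by
      rw [integral_div, gaussian_sq]; simp
    rw [integral_add (integrable_const _) ((gaussian_memLp 1).integrable_sq.div_const _), h3] at h2
    simp at h2
    linarith
  have h3 : ∫ g : Fin m → ℝ, ((Set.indicator {g : Fin m → ℝ | x ≤ ⨆ j, g j} (fun _ => x) g) -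
      |g j0|) ∂(gam m 1) ≤ gmax m := by
    refine integral_mono (((integrable_const x).indicator hS).sub habs.1) (gam_int m 1)
      fun g => ?_
    show Set.indicator {g : Fin m → ℝ | x ≤ ⨆ j, g j} (fun _ => x) g - |g j0| ≤ ⨆ j, g j
    by_cases hg : g ∈ {g : Fin m → ℝ | x ≤ ⨆ j, g j}
    · rw [Set.indicator_of_mem hg]
      have h4 : x ≤ ⨆ j, g j := hg
      linarith [abs_nonneg (g j0)]
    · rw [Set.indicator_of_notMem hg]
      have h4 := le_top g j0
      linarith [neg_abs_le (g j0)]
  rw [integral_sub ((integrable_const x).indicator hS) habs.1, integral_indicator_const _ hS,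
    h1, habs.2, smul_eq_mul] at h3
  linarith

/-- The expected maximum grows at least like `√(log m)`. -/
lemma gmax_lower : ∃ c : ℝ, 0 < c ∧ ∀ m : ℕ, 2 ≤ m → c * Real.sqrt (Real.log m) ≤ gmax m := by
  refine ⟨min (1 / 4) (gmax 2 / 6), lt_min (by norm_num) (by linarith [gmax_two_pos]), ?_⟩
  intro m hm
  set r := Real.sqrt (Real.log m) with hr
  have hr0 : 0 ≤ r := Real.sqrt_nonneg _
  rcases le_total r 6 with h | h
  · have h1 : min (1 / 4) (gmax 2 / 6) * r ≤ gmax 2 / 6 * 6 :=
      mul_le_mul (min_le_right _ _) h hr0 (by linarith [gmax_two_pos])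
    have h2 := gmax_mono_pos hm
    linarith
  · have hmR : (2 : ℝ) ≤ m := by exact_mod_cast hm
    have hlog : 0 ≤ Real.log m := Real.log_nonneg (by linarith)
    have hr2 : r ^ 2 = Real.log m := Real.sq_sqrt hlog
    have h1 := gmax_ge_tail (m := m) (by omega) (x := r - 1) (by linarith)
    have h2 := tail_ge (x := r - 1) (by linarith)
    rw [sub_add_cancel] at h2
    set p := (gaussianReal 0 1).real (Set.Ici (r - 1)) with hp
    have hp1 : p ≤ 1 := measureReal_le_one
    -- `m p ≥ √m / 3`
    have hm36 : Real.exp 36 ≤ m := by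
      rw [← Real.le_log_iff_exp_le (by linarith), ← hr2]
      nlinarith
    have he : Real.exp (-r ^ 2 / 2) = (Real.sqrt m)⁻¹ := by
      rw [neg_div, Real.exp_neg, hr2, Real.exp_half, Real.exp_log (by linarith)]
    have hs0 : 0 < Real.sqrt m := Real.sqrt_pos.2 (by linarith)
    have hs2 : Real.sqrt m * Real.sqrt m = m := Real.mul_self_sqrt (by linarith)
    have hs6 : 6 ≤ Real.sqrt m := by
      apply Real.le_sqrt_of_sq_le
      have := Real.add_one_le_exp (36 : ℝ)
      linarith
    have hmp : 2 ≤ m * p := by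
      rw [he] at h2
      have h3 : m * ((Real.sqrt m)⁻¹ / 3) ≤ m * p := mul_le_mul_of_nonneg_left h2 (by linarith)
      have h4 : m * ((Real.sqrt m)⁻¹ / 3) = Real.sqrt m / 3 := by
        nth_rewrite 1 [← hs2]
        field_simp
      linarith
    have h5 : (1 - p) ^ m ≤ 1 / 2 := by
      have h6 : (1 - p) ^ m ≤ (Real.exp (-p)) ^ m :=
        pow_le_pow_left₀ (by linarith) (by linarith [Real.add_one_le_exp (-p)]) m
      have h7 : (Real.exp (-p)) ^ m = Real.exp (-(m * p)) := by
        rw [← Real.exp_nat_mul]; congr 1; ring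
      have h8 : Real.exp (-(m * p)) ≤ Real.exp (-1) := Real.exp_le_exp.2 (by linarith)
      have h9 : Real.exp (-1) ≤ 1 / 2 := by
        rw [Real.exp_neg]
        have := Real.add_one_le_exp (1 : ℝ)
        rw [inv_le_comm₀ (Real.exp_pos _) (by norm_num)]
        linarith
      linarith
    have h6 : (r - 1) * (1 / 2) ≤ (r - 1) * (1 - (1 - p) ^ m) :=
      mul_le_mul_of_nonneg_left (by linarith) (by linarith)
    have h7 : min (1 / 4) (gmax 2 / 6) * r ≤ 1 / 4 * r :=
      mul_le_mul_of_nonneg_right (min_le_left _ _) hr0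
    linarith

/-- The expected maximum is at most `√(2 log m)`. -/
lemma gmax_upper {m : ℕ} (hm : 2 ≤ m) : gmax m ≤ Real.sqrt (2 * Real.log m) := by
  have : Nonempty (Fin m) := ⟨⟨0, by omega⟩⟩
  have hmR : (2 : ℝ) ≤ m := by exact_mod_cast hm
  have hlog : 0 < Real.log m := Real.log_pos (by linarith)
  set s := Real.sqrt (2 * Real.log m) with hs
  have hs0 : 0 < s := Real.sqrt_pos.2 (by positivity)
  have hs2 : s ^ 2 = 2 * Real.log m := Real.sq_sqrt (by positivity)
  have hexp := coord_int (m := m)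
    (f := fun y => Real.exp (s * y)) (hf := integrable_exp_mul_gaussianReal s)
  have hmgf : ∫ y, Real.exp (s * y) ∂(gaussianReal 0 1) = Real.exp (s ^ 2 / 2) := by
    have h := mgf_id_gaussianReal (μ := 0) (v := 1)
    have h2 := congrFun h s
    unfold mgf at h2
    simp only [id_eq] at h2
    rw [h2]
    simp
  have hint : Integrable (fun g : Fin m → ℝ =>
      s + ((∑ j, Real.exp (s * g j) * Real.exp (-(s * s))) - 1) / s) (gam m 1) :=
    (integrable_const _).add (((integrable_finsetSum _ fun j _ =>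
      (hexp j).1.mul_const _).sub (integrable_const _)).div_const _)
  have h1 : gmax m ≤ ∫ g : Fin m → ℝ,
      (s + ((∑ j, Real.exp (s * g j) * Real.exp (-(s * s))) - 1) / s) ∂(gam m 1) := by
    refine integral_mono (gam_int m 1) hint fun g => ?_
    show (⨆ j, g j) ≤ s + ((∑ j, Real.exp (s * g j) * Real.exp (-(s * s))) - 1) / s
    obtain ⟨j, hj⟩ := exists_top g
    rw [hj]
    have h2 : Real.exp (s * g j) * Real.exp (-(s * s)) ≤
        ∑ j, Real.exp (s * g j) * Real.exp (-(s * s)) :=
      single_le_sum (f := fun j => Real.exp (s * g j) * Real.exp (-(s * s)))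
        (fun j _ => by positivity) (mem_univ j)
    have h3 : s * (g j - s) + 1 ≤ Real.exp (s * g j) * Real.exp (-(s * s)) := by
      rw [← Real.exp_add]
      have := Real.add_one_le_exp (s * g j + -(s * s))
      linarith
    have h4 : g j - s ≤ ((∑ j, Real.exp (s * g j) * Real.exp (-(s * s))) - 1) / s := by
      rw [le_div_iff₀ hs0]; linarith
    linarith
  refine h1.trans (le_of_eq ?_)
  have i1 : ∀ j : Fin m, Integrable (fun g : Fin m → ℝ => Real.exp (s * g j) * Real.exp (-(s * s)))
      (gam m 1) := fun j => (hexp j).1.mul_const _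
  have i2 : Integrable (fun g : Fin m → ℝ => ∑ j, Real.exp (s * g j) * Real.exp (-(s * s)))
      (gam m 1) := integrable_finsetSum _ fun j _ => i1 j
  have i3 : Integrable (fun g : Fin m → ℝ =>
      ((∑ j, Real.exp (s * g j) * Real.exp (-(s * s))) - 1) / s) (gam m 1) :=
    (i2.sub (integrable_const _)).div_const _
  have h5 : ∀ j : Fin m, ∫ g : Fin m → ℝ, Real.exp (s * g j) * Real.exp (-(s * s)) ∂(gam m 1) =
      1 / m := by
    intro j
    rw [integral_mul_const, (hexp j).2, hmgf, ← Real.exp_add]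
    have : s ^ 2 / 2 + -(s * s) = -Real.log m := by
      have : s * s = s ^ 2 := by ring
      rw [this, hs2]; ring
    rw [this, Real.exp_neg, Real.exp_log (by linarith)]
    simp
  have h6 : ∫ g : Fin m → ℝ, ((∑ j, Real.exp (s * g j) * Real.exp (-(s * s))) - 1) / s
      ∂(gam m 1) = (∑ j : Fin m, ∫ g : Fin m → ℝ, Real.exp (s * g j) * Real.exp (-(s * s))
        ∂(gam m 1) - 1) / s := by
    rw [integral_div, integral_sub i2 (integrable_const _), integral_finsetSum _ fun j _ => i1 j]
    simp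
  rw [integral_add (integrable_const _) i3, h6, sum_congr rfl fun j _ => h5 j]
  have hm0 : (m : ℝ) ≠ 0 := by linarith
  simp [hm0]

end Pool.Agent.Y628.FS
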