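import Pool.Agent.Y628.FS.GaussLog

set_option autoImplicit false

open MeasureTheory ProbabilityTheory Filter Topology Finset
open Pool.Agent.Results.MP_0b8746_pr.SqrtLogUpperBound

namespace Pool.Agent.Y628.FS

lemma maxLoad_eq {m n : ℕ} (hm : 0 < m) (hn : 0 < n) (τ : ℝ) (t : Fin n → Fin m → ℝ) :
    maxLoad t = n * τ + Real.sqrt n * ⨆ j, vec τ t j := by
  have : Nonempty (Fin m) := ⟨⟨0, hm⟩⟩
  have hs : 0 < Real.sqrt n := Real.sqrt_pos.2 (by exact_mod_cast hn)
  have h : ∀ j, ∑ i, t i j = n * τ + Real.sqrt n * vec τ t j := by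
    intro j
    unfold vec nsum
    rw [sum_sub_distrib, sum_const, card_univ, Fintype.card_fin, nsmul_eq_mul, ← mul_assoc,
      mul_inv_cancel₀ hs.ne']
    ring
  apply le_antisymm
  · refine ciSup_le fun j => ?_
    rw [h j]
    have := mul_le_mul_of_nonneg_left (le_top (vec τ t) j) hs.le
    linarith
  · obtain ⟨j, hj⟩ := exists_top (vec τ t)
    rw [hj, ← h j]
    exact load_le_maxLoad t j

section Lim

variable {F : Measure ℝ} (hF : IsTimeLaw F)
include hF

/-- The mean of the largest normalized load. -/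
lemma top_vec_tendsto {m : ℕ} (hm : 0 < m) :
    Tendsto (fun n : ℕ => ∫ t, (⨆ j, vec (∫ x, x ∂F) t j) ∂(law F m n)) atTop
      (𝓝 (Real.sqrt Var[fun x : ℝ => x; F] * gmax m)) := by
  have := hF.prob
  have hne : Nonempty (Fin m) := ⟨⟨0, hm⟩⟩
  set v := Var[fun x : ℝ => x; F] with hv
  have hv0 : 0 < v := hF.pos
  have hvv : ((v.toNNReal : NNReal) : ℝ) = v := Real.coe_toNNReal v hv0.le
  let P : ℕ → ProbabilityMeasure (Fin m → ℝ) := fun n => ⟨(law F m n).map (vec (∫ x, x ∂F)),
    Measure.isProbabilityMeasure_map (measurable_vec _).aemeasurable⟩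
  let Q : ProbabilityMeasure (Fin m → ℝ) := ⟨gam m v.toNNReal, inferInstance⟩
  have h1 : Tendsto P atTop (𝓝 Q) := vec_tendsto m hF.memLp hF.pos
  have h2 := top_tendsto h1 (C := m * v) (by positivity) ?_ ?_
  · have e1 : ∫ x, (⨆ j, x j) ∂(Q : Measure (Fin m → ℝ)) = Real.sqrt v * gmax m := by
      show ∫ x, (⨆ j, x j) ∂(gam m v.toNNReal) = _
      rw [gam_top, hvv]
    rw [← e1]
    refine h2.congr fun n => ?_
    show ∫ x, (⨆ j, x j) ∂((law F m n).map (vec (∫ x, x ∂F))) = _
    rw [integral_map (measurable_vec _).aemeasurable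
      continuous_top.measurable.aestronglyMeasurable]
  · filter_upwards [eventually_gt_atTop 0] with n hn
    have h3 := nu_moment hF.memLp hn
    have h4 := pi_moment (m := m) h3.1 h3.2
    rw [← map_vec] at h4
    exact h4
  · have h4 := gam_sq m v.toNNReal
    rw [hvv] at h4
    exact h4

lemma excess_tendsto {m : ℕ} (hm : 0 < m) :
    Tendsto (fun n : ℕ => (∫ t : Fin n → Fin m → ℝ, excess t ∂(law F m n)) / Real.sqrt n) atTop
      (𝓝 0) := by
  have := hF.prob
  rw [Metric.tendsto_atTop]
  intro ε hε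
  obtain ⟨N, hN⟩ := excess_small hF.memLp hF.nonneg hm (ε / 2) (by positivity)
  refine ⟨max N 1, fun n hn => ?_⟩
  have hn1 : 1 ≤ n := (le_max_right _ _).trans hn
  have hs : 0 < Real.sqrt n := Real.sqrt_pos.2 (by exact_mod_cast hn1)
  have h1 := hN n ((le_max_left _ _).trans hn)
  have h2 : 0 ≤ ∫ t : Fin n → Fin m → ℝ, excess t ∂(law F m n) :=
    integral_nonneg_of_ae (excess_nonneg hm hF.nonneg)
  rw [Real.dist_eq, sub_zero, abs_of_nonneg (by positivity), div_lt_iff₀ hs]
  nlinarith

/-- The normalized error of the optimal policy. -/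
noncomputable def err (F : Measure ℝ) {m n : ℕ} (t : Fin n → Fin m → ℝ) : ℝ :=
  (optMakespan t - ((n : ℝ) + m - 1) * ∫ x, x ∂F) / Real.sqrt n

omit hF in
lemma err_eq {m n : ℕ} (hm : 0 < m) (hn : 0 < n) (t : Fin n → Fin m → ℝ) :
    err F t = (⨆ j, vec (∫ x, x ∂F) t j) + excess t / Real.sqrt n -
      ((m : ℝ) - 1) * (∫ x, x ∂F) / Real.sqrt n := by
  have hs : 0 < Real.sqrt n := Real.sqrt_pos.2 (by exact_mod_cast hn)
  have h := maxLoad_eq hm hn (∫ x, x ∂F) t
  have h2 : optMakespan t = excess t + maxLoad t := by unfold excess; ring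
  unfold err
  rw [h2, h]
  field_simp
  ring

lemma const_tendsto (c : ℝ) : Tendsto (fun n : ℕ => c / Real.sqrt n) atTop (𝓝 0) :=
  tendsto_const_nhds.div_atTop (Real.tendsto_sqrt_atTop.comp tendsto_natCast_atTop_atTop)

lemma integrable_top_vec {m n : ℕ} (hm : 0 < m) (hn : 0 < n) :
    Integrable (fun t => ⨆ j, vec (∫ x, x ∂F) t j) (law F m n) := by
  have := hF.prob
  have hs : 0 < Real.sqrt n := Real.sqrt_pos.2 (by exact_mod_cast hn)
  have h1 : (fun t : Fin n → Fin m → ℝ => ⨆ j, vec (∫ x, x ∂F) t j) =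
      fun t => (maxLoad t - n * ∫ x, x ∂F) / Real.sqrt n := by
    funext t
    rw [maxLoad_eq hm hn (∫ x, x ∂F) t]
    field_simp
    ring
  rw [h1]
  exact ((integrable_maxLoad hm hF.nonneg (hF.memLp.integrable (by norm_num))).sub
    (integrable_const _)).div_const _

/-- **Exact asymptotics of the expected error.** -/
theorem mean_limit {m : ℕ} (hm : 0 < m) :
    Tendsto (fun n : ℕ => expectedError F m n / Real.sqrt n) atTop
      (𝓝 (Real.sqrt Var[fun x : ℝ => x; F] * gmax m)) := by
  have := hF.prob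
  have h1 := top_vec_tendsto hF hm
  have h2 := excess_tendsto hF hm
  have h3 := const_tendsto hF (((m : ℝ) - 1) * ∫ x, x ∂F)
  have h4 := (h1.add h2).sub h3
  rw [add_zero, sub_zero] at h4
  refine h4.congr' ?_
  filter_upwards [eventually_gt_atTop 0] with n hn
  have hi := integrable_top_vec hF hm hn
  have he : Integrable (fun t : Fin n → Fin m → ℝ => excess t / Real.sqrt n) (law F m n) :=
    (integrable_excess hm hF.nonneg (hF.memLp.integrable (by norm_num))).div_const _
  have e1 : expectedError F m n / Real.sqrt n = ∫ t, err F t ∂(law F m n) := by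
    unfold expectedError err
    rw [integral_div]
  have e2 : ∫ t, err F t ∂(law F m n) = ∫ t, ((⨆ j, vec (∫ x, x ∂F) t j) +
      excess t / Real.sqrt n - ((m : ℝ) - 1) * (∫ x, x ∂F) / Real.sqrt n) ∂(law F m n) :=
    integral_congr_ae (ae_of_all _ fun t => err_eq hm hn t)
  have hie : Integrable (fun t : Fin n → Fin m → ℝ => (⨆ j, vec (∫ x, x ∂F) t j) +
      excess t / Real.sqrt n) (law F m n) := hi.add he
  rw [e1, e2, integral_sub hie (integrable_const _), integral_add hi he, integral_div]
  simp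

/-- The law of the normalized error. -/
lemma err_weak {m : ℕ} (hm : 0 < m) : Tendsto (β := ProbabilityMeasure ℝ)
    (fun n : ℕ => ⟨(law F m n).map (err F),
      by have := hF.prob; exact Measure.isProbabilityMeasure_map (by
        unfold err
        exact (((measurable_opt).sub_const _).div_const _).aemeasurable)⟩) atTop
    (𝓝 ⟨(gam m (Var[fun x : ℝ => x; F]).toNNReal).map (fun x => ⨆ j, x j),
      by
        have : Nonempty (Fin m) := ⟨⟨0, hm⟩⟩
        exact Measure.isProbabilityMeasure_map continuous_top.measurable.aemeasurable⟩) := by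
  have := hF.prob
  have hne : Nonempty (Fin m) := ⟨⟨0, hm⟩⟩
  set v := Var[fun x : ℝ => x; F] with hv
  have herr : ∀ n, Measurable (err F : (Fin n → Fin m → ℝ) → ℝ) := by
    intro n
    unfold err
    exact ((measurable_opt).sub_const _).div_const _
  rw [tendsto_iff_forall_lipschitz_integral_tendsto]
  rintro f ⟨C, hC⟩ ⟨L, hL⟩
  have hfc : Continuous f := hL.continuous
  -- the limit for the normalized loads
  let P : ℕ → ProbabilityMeasure (Fin m → ℝ) := fun n => ⟨(law F m n).map (vec (∫ x, x ∂F)),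
    Measure.isProbabilityMeasure_map (measurable_vec _).aemeasurable⟩
  let Q : ProbabilityMeasure (Fin m → ℝ) := ⟨gam m v.toNNReal, inferInstance⟩
  have h1 : Tendsto P atTop (𝓝 Q) := vec_tendsto m hF.memLp hF.pos
  have hbd : ∀ y, |f y| ≤ |f 0| + C := by
    intro y
    have h := hC y 0
    rw [Real.dist_eq] at h
    have h2 : |f y| ≤ |f y - f 0| + |f 0| := by
      have := abs_add_le (f y - f 0) (f 0)
      simpa using this
    linarith
  let g : BoundedContinuousFunction (Fin m → ℝ) ℝ :=
    BoundedContinuousFunction.ofNormedAddCommGroup (fun x => f (⨆ j, x j))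
      (hfc.comp continuous_top) (|f 0| + C) (fun x => hbd _)
  have h2 := ProbabilityMeasure.tendsto_iff_forall_integral_tendsto.1 h1 g
  have h2' : Tendsto (fun n : ℕ => ∫ t, f (⨆ j, vec (∫ x, x ∂F) t j) ∂(law F m n)) atTop
      (𝓝 (∫ x, f (⨆ j, x j) ∂(gam m v.toNNReal))) := by
    refine h2.congr fun n => ?_
    have hmeas : Measurable (fun x : Fin m → ℝ => f (⨆ j, x j)) :=
      (hfc.comp continuous_top).measurable
    show ∫ x, f (⨆ j, x j) ∂((law F m n).map (vec (∫ x, x ∂F))) = _
    rw [integral_map (measurable_vec _).aemeasurable hmeas.aestronglyMeasurable]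
  have e0 : ∫ x, f x ∂((gam m v.toNNReal).map (fun x => ⨆ j, x j)) =
      ∫ x, f (⨆ j, x j) ∂(gam m v.toNNReal) := by
    rw [integral_map continuous_top.measurable.aemeasurable hfc.measurable.aestronglyMeasurable]
  show Tendsto (fun n : ℕ => ∫ x, f x ∂((law F m n).map (err F))) atTop
    (𝓝 (∫ x, f x ∂((gam m v.toNNReal).map (fun x => ⨆ j, x j))))
  rw [e0]
  -- the difference tends to zero
  have h5 : Tendsto (fun n : ℕ => (L : ℝ) * ((∫ t : Fin n → Fin m → ℝ, excess t ∂(law F m n)) /
      Real.sqrt n + |((m : ℝ) - 1) * ∫ x, x ∂F| / Real.sqrt n)) atTop (𝓝 0) := by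
    have := ((excess_tendsto hF hm).add
      (const_tendsto hF |((m : ℝ) - 1) * ∫ x, x ∂F|)).const_mul (L : ℝ)
    simpa using this
  have h6 : Tendsto (fun n : ℕ => ∫ x, f x ∂((law F m n).map (err F)) -
      ∫ t, f (⨆ j, vec (∫ x, x ∂F) t j) ∂(law F m n)) atTop (𝓝 0) := by
    refine squeeze_zero_norm' ?_ h5
    filter_upwards [eventually_gt_atTop 0] with n hn
    have hs : 0 < Real.sqrt n := Real.sqrt_pos.2 (by exact_mod_cast hn)
    have hi := integrable_top_vec hF hm hn
    have he0 := integrable_excess (F := F) (n := n) hm hF.nonneg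
      (hF.memLp.integrable (by norm_num))
    have he : Integrable (fun t : Fin n → Fin m → ℝ => excess t / Real.sqrt n) (law F m n) :=
      he0.div_const _
    have i1 : Integrable (fun t : Fin n → Fin m → ℝ => f (err F t)) (law F m n) :=
      (integrable_const (|f 0| + C)).mono' (hfc.measurable.comp (herr n)).aestronglyMeasurable
        (ae_of_all _ fun t => hbd _)
    have i2 : Integrable (fun t : Fin n → Fin m → ℝ => f (⨆ j, vec (∫ x, x ∂F) t j))
        (law F m n) :=
      (integrable_const (|f 0| + C)).mono' (hfc.measurable.comp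
        (continuous_top.measurable.comp (measurable_vec _))).aestronglyMeasurable
        (ae_of_all _ fun t => hbd _)
    rw [integral_map (herr n).aemeasurable hfc.measurable.aestronglyMeasurable,
      ← integral_sub i1 i2]
    refine (norm_integral_le_integral_norm _).trans ?_
    have e5 : (L : ℝ) * ((∫ t : Fin n → Fin m → ℝ, excess t ∂(law F m n)) /
        Real.sqrt n + |((m : ℝ) - 1) * ∫ x, x ∂F| / Real.sqrt n) =
        ∫ t : Fin n → Fin m → ℝ, (L : ℝ) * (excess t / Real.sqrt n +
          |((m : ℝ) - 1) * ∫ x, x ∂F| / Real.sqrt n) ∂(law F m n) := by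
      rw [integral_const_mul, integral_add he (integrable_const _), integral_div]
      simp
    rw [e5]
    refine integral_mono_ae (i1.sub i2).norm ((he.add (integrable_const _)).const_mul _) ?_
    filter_upwards [excess_nonneg (F := F) (n := n) hm hF.nonneg] with t ht
    have h7 := hL.dist_le_mul (err F t) (⨆ j, vec (∫ x, x ∂F) t j)
    rw [Real.dist_eq, Real.dist_eq] at h7
    refine h7.trans (mul_le_mul_of_nonneg_left ?_ L.coe_nonneg)
    rw [err_eq hm hn t]
    have h8 : (⨆ j, vec (∫ x, x ∂F) t j) + excess t / Real.sqrt n -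
      ((m : ℝ) - 1) * (∫ x, x ∂F) / Real.sqrt n - (⨆ j, vec (∫ x, x ∂F) t j) =
      excess t / Real.sqrt n + -(((m : ℝ) - 1) * (∫ x, x ∂F) / Real.sqrt n) := by ring
    rw [h8]
    refine (abs_add_le _ _).trans ?_
    rw [abs_neg, abs_div (((m : ℝ) - 1) * ∫ x, x ∂F), abs_of_pos hs,
      abs_of_nonneg (div_nonneg ht hs.le)]
  have h7 := h6.add h2'
  rw [zero_add] at h7
  refine h7.congr fun n => ?_
  ring

/-- **The limit law of the error.** -/
theorem law_limit {m : ℕ} (hm : 0 < m) (x : ℝ) :
    Tendsto (fun n : ℕ => (law F m n).real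
      {t | optMakespan t - ((n : ℝ) + m - 1) * ∫ x, x ∂F ≤ x * Real.sqrt n}) atTop
      (𝓝 (((gaussianReal 0 1).real (Set.Iic (x / Real.sqrt Var[fun x : ℝ => x; F]))) ^ m)) := by
  have := hF.prob
  have hne : Nonempty (Fin m) := ⟨⟨0, hm⟩⟩
  set v := Var[fun x : ℝ => x; F] with hv
  have hv0 : 0 < v := hF.pos
  have hvne : v.toNNReal ≠ 0 := by
    intro h
    rw [Real.toNNReal_eq_zero] at h
    linarith
  have herr : ∀ n, Measurable (err F : (Fin n → Fin m → ℝ) → ℝ) := by
    intro n
    unfold err
    exact ((measurable_opt).sub_const _).div_const _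
  have hfr : ((gam m v.toNNReal).map (fun x : Fin m → ℝ => ⨆ j, x j)) (frontier (Set.Iic x)) = 0 := by
    rw [frontier_Iic, Measure.map_apply continuous_top.measurable (measurableSet_singleton x)]
    have hsub : (fun x : Fin m → ℝ => ⨆ j, x j) ⁻¹' {x} ⊆ ⋃ j : Fin m, {y | y j = x} := by
      intro y hy
      obtain ⟨j, hj⟩ := exists_top y
      have h : (⨆ j, y j) = x := hy
      exact Set.mem_iUnion.2 ⟨j, by show y j = x; rw [← hj, h]⟩
    refine measure_mono_null hsub (measure_iUnion_null fun j => ?_)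
    have h := measurePreserving_eval (fun _ : Fin m => gaussianReal 0 v.toNNReal) j
    have h2 := h.measure_preimage (measurableSet_singleton x).nullMeasurableSet
    have h3 : gaussianReal 0 v.toNNReal {x} = 0 := by
      have := noAtoms_gaussianReal (μ := 0) hvne
      exact measure_singleton x
    rw [h3] at h2
    exact h2
  have h1 := ProbabilityMeasure.tendsto_measure_of_null_frontier_of_tendsto' (err_weak hF hm) hfr
  have h2 := (ENNReal.tendsto_toReal (measure_ne_top _ _)).comp h1
  have e1 : ((gam m v.toNNReal).map (fun x : Fin m → ℝ => ⨆ j, x j)).real (Set.Iic x) =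
      ((gaussianReal 0 1).real (Set.Iic (x / Real.sqrt v))) ^ m := by
    rw [measureReal_def, Measure.map_apply continuous_top.measurable measurableSet_Iic,
      ← measureReal_def]
    have e2 : (fun x : Fin m → ℝ => ⨆ j, x j) ⁻¹' Set.Iic x = {g | ∀ j, g j ∈ Set.Iic x} := by
      ext g
      constructor
      · intro h j
        exact (le_top g j).trans h
      · intro h
        show (⨆ j, g j) ≤ x
        exact ciSup_le fun j => h j
    rw [e2, gam_real_pi]
    congr 1
    have hs : 0 < Real.sqrt v := Real.sqrt_pos.2 hv0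
    have e3 : gaussianReal 0 v.toNNReal = (gaussianReal 0 1).map (fun y => Real.sqrt v * y) := by
      rw [gaussianReal_map_const_mul]
      congr 1
      · simp
      · ext
        simp [Real.sq_sqrt hv0.le, hv0.le]
    rw [e3, measureReal_def, Measure.map_apply (by fun_prop) measurableSet_Iic,
      ← measureReal_def]
    congr 1
    ext y
    simp only [Set.mem_preimage, Set.mem_Iic]
    rw [le_div_iff₀ hs, mul_comm]
  rw [← e1]
  refine h2.congr' ?_
  filter_upwards [eventually_gt_atTop 0] with n hn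
  have hs : 0 < Real.sqrt n := Real.sqrt_pos.2 (by exact_mod_cast hn)
  show ((law F m n).map (err F) (Set.Iic x)).toReal = _
  rw [Measure.map_apply (herr n) measurableSet_Iic, ← measureReal_def]
  congr 1
  ext t
  show err F t ≤ x ↔ _
  unfold err
  rw [div_le_iff₀ hs]
  rfl

end Lim

end Pool.Agent.Y628.FS
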