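import Pool.Agent.Y628.FS.Clt

set_option autoImplicit false

open MeasureTheory ProbabilityTheory Filter Topology Finset
open Pool.Agent.Results.MP_0b8746_pr.SqrtLogUpperBound

namespace Pool.Agent.Y628.FS

/-! ### The maximum of finitely many numbers -/

lemma iSup_eq_sup' {m : ℕ} [Nonempty (Fin m)] (x : Fin m → ℝ) :
    (⨆ j, x j) = univ.sup' univ_nonempty x := (Finset.sup'_univ_eq_ciSup x).symm

lemma le_top {m : ℕ} (x : Fin m → ℝ) (j : Fin m) : x j ≤ ⨆ j, x j :=
  le_ciSup (Set.finite_range x).bddAbove j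

lemma exists_top {m : ℕ} [Nonempty (Fin m)] (x : Fin m → ℝ) : ∃ j, (⨆ j, x j) = x j := by
  obtain ⟨j, hj⟩ := Finite.exists_max x
  exact ⟨j, le_antisymm (ciSup_le hj) (le_top x j)⟩

lemma continuous_top {m : ℕ} [Nonempty (Fin m)] : Continuous (fun x : Fin m → ℝ => ⨆ j, x j) := by
  simp_rw [iSup_eq_sup']
  exact Continuous.finset_sup'_apply _ fun j _ => continuous_apply j

lemma top_sq_le {m : ℕ} [Nonempty (Fin m)] (x : Fin m → ℝ) : (⨆ j, x j) ^ 2 ≤ ∑ j, x j ^ 2 := by
  obtain ⟨j, hj⟩ := exists_top x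
  rw [hj]
  exact single_le_sum (f := fun j => x j ^ 2) (fun j _ => sq_nonneg _) (mem_univ j)

/-- Truncation at the level `R`. -/
noncomputable def cut (R u : ℝ) : ℝ := max (min u R) (-R)

lemma cut_bdd {R : ℝ} (hR : 0 ≤ R) (u : ℝ) : |cut R u| ≤ R := by
  unfold cut
  rw [abs_le]
  refine ⟨le_max_right _ _, max_le (min_le_right _ _) (by linarith)⟩

lemma cut_close {R : ℝ} (hR : 0 < R) (u : ℝ) : |u - cut R u| ≤ u ^ 2 / R := by
  have h0 : 0 ≤ u ^ 2 / R := by positivity
  unfold cut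
  rcases le_total u R with h | h
  · rw [min_eq_left h]
    rcases le_total (-R) u with h2 | h2
    · rw [max_eq_left h2, sub_self, abs_zero]; exact h0
    · rw [max_eq_right h2, abs_le]
      have h3 : -u ≤ u ^ 2 / R := by
        rw [le_div_iff₀ hR]; nlinarith
      constructor <;> linarith
  · rw [min_eq_right h, max_eq_left (by linarith), abs_le]
    have h3 : u ≤ u ^ 2 / R := by
      rw [le_div_iff₀ hR]; nlinarith
    constructor <;> linarith

lemma continuous_cut (R : ℝ) : Continuous (cut R) := by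
  unfold cut; fun_prop

/-! ### Second moments -/

section Mom

variable {F : Measure ℝ} [IsProbabilityMeasure F]

lemma nu_moment (hL2 : MemLp (fun x : ℝ => x) 2 F) {n : ℕ} (hn : 0 < n) :
    MemLp (fun x : ℝ => x) 2 (nu F n) ∧ ∫ x, x ^ 2 ∂(nu F n) = Var[fun x : ℝ => x; F] := by
  set τ := ∫ x, x ∂F with hτ
  have hid : Integrable (fun x : ℝ => x) F := hL2.integrable (by norm_num)
  let X : Fin n → ℝ → ℝ := fun _ x => x - τ
  have hX : ∀ i, MemLp (X i) 2 F := fun i => hL2.sub (memLp_const _)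
  have hXi : ∀ i : Fin n, MemLp (fun t : Fin n → ℝ => X i (t i)) 2 (Measure.pi fun _ => F) :=
    fun i => (hX i).comp_measurePreserving (measurePreserving_eval (fun _ : Fin n => F) i)
  have hsum : MemLp (fun t : Fin n → ℝ => ∑ i, (t i - τ)) 2 (Measure.pi fun _ => F) := by
    have := memLp_finsetSum' univ fun i _ => hXi i
    convert this using 1
    ext t
    simp [X]
  have hns : MemLp (nsum τ n) 2 (Measure.pi fun _ => F) := hsum.const_mul _
  have hvs := variance_sum_pi (μ := fun _ : Fin n => F) hX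
  have hie : Integrable (fun x => x - τ) F := hid.sub (integrable_const τ)
  have hmean : ∫ t : Fin n → ℝ, ∑ i, (t i - τ) ∂(Measure.pi fun _ => F) = 0 := by
    have hi : ∀ i : Fin n, Integrable (fun t : Fin n → ℝ => t i - τ) (Measure.pi fun _ => F) :=
      fun i => (measurePreserving_eval (fun _ : Fin n => F) i).integrable_comp_of_integrable hie
    rw [integral_finsetSum _ fun i _ => hi i]
    refine sum_eq_zero fun i _ => ?_
    have h := measurePreserving_eval (fun _ : Fin n => F) i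
    have h2 : ∫ t : Fin n → ℝ, (t i - τ) ∂(Measure.pi fun _ => F) = ∫ x, (x - τ) ∂F := by
      have := integral_map (μ := Measure.pi fun _ : Fin n => F) h.measurable.aemeasurable
        (f := fun x => x - τ) (by fun_prop)
      rw [h.map_eq] at this
      exact this.symm
    rw [h2, integral_sub hid (integrable_const _)]
    simp [← hτ]
  have h1 : ∫ t : Fin n → ℝ, (∑ i, (t i - τ)) ^ 2 ∂(Measure.pi fun _ => F) =
      n * Var[fun x : ℝ => x; F] := by
    have e1 : ∫ t : Fin n → ℝ, (∑ i, (t i - τ)) ^ 2 ∂(Measure.pi fun _ => F) =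
        Var[fun t : Fin n → ℝ => ∑ i, (t i - τ); Measure.pi fun _ => F] := by
      rw [variance_eq_integral hsum.aestronglyMeasurable.aemeasurable, hmean]
      simp
    have e2 : Var[fun t : Fin n → ℝ => ∑ i, (t i - τ); Measure.pi fun _ => F] =
        ∑ i, Var[X i; F] := by
      rw [← hvs]
      congr 1
      ext t
      simp [X]
    rw [e1, e2]
    have e3 : ∀ i, Var[X i; F] = Var[fun x : ℝ => x; F] := fun i =>
      variance_sub_const (by fun_prop) τ
    simp [e3]
  have hr : (Real.sqrt n) ^ 2 = n := Real.sq_sqrt (Nat.cast_nonneg n)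
  have hn0 : (n : ℝ) ≠ 0 := by exact_mod_cast hn.ne'
  constructor
  · exact (memLp_map_measure_iff (by fun_prop) (measurable_nsum _ _).aemeasurable).2 hns
  · unfold nu
    rw [integral_map (measurable_nsum _ _).aemeasurable (by fun_prop)]
    unfold nsum
    simp_rw [mul_pow]
    rw [integral_const_mul, h1, inv_pow, hr]
    field_simp

lemma pi_moment {m : ℕ} {P : Measure ℝ} [IsProbabilityMeasure P] {v : ℝ}
    (hP : MemLp (fun x : ℝ => x) 2 P) (hv : ∫ x, x ^ 2 ∂P = v) :
    Integrable (fun x : Fin m → ℝ => ∑ j, x j ^ 2) (Measure.pi fun _ => P) ∧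
    ∫ x : Fin m → ℝ, ∑ j, x j ^ 2 ∂(Measure.pi fun _ => P) = m * v := by
  have hi : Integrable (fun x : ℝ => x ^ 2) P := hP.integrable_sq
  have hj : ∀ j : Fin m, Integrable (fun x : Fin m → ℝ => x j ^ 2) (Measure.pi fun _ => P) :=
    fun j => (measurePreserving_eval (fun _ : Fin m => P) j).integrable_comp_of_integrable hi
  refine ⟨integrable_finsetSum _ fun j _ => hj j, ?_⟩
  rw [integral_finsetSum _ fun j _ => hj j]
  have h2 : ∀ j : Fin m, ∫ x : Fin m → ℝ, x j ^ 2 ∂(Measure.pi fun _ => P) = v := by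
    intro j
    have h := measurePreserving_eval (fun _ : Fin m => P) j
    have := integral_map (μ := Measure.pi fun _ : Fin m => P) h.measurable.aemeasurable
      (f := fun x => x ^ 2) (by fun_prop)
    rw [h.map_eq] at this
    rw [← hv, this]
  simp [h2]

/-- Integrals of the maximum and of the truncated maximum. -/
lemma top_cut {m : ℕ} [Nonempty (Fin m)] {P : Measure (Fin m → ℝ)} [IsProbabilityMeasure P] {C : ℝ}
    (hi : Integrable (fun x : Fin m → ℝ => ∑ j, x j ^ 2) P)
    (hC : ∫ x : Fin m → ℝ, ∑ j, x j ^ 2 ∂P = C) {R : ℝ} (hR : 0 < R) :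
    Integrable (fun x : Fin m → ℝ => ⨆ j, x j) P ∧
    |∫ x, (⨆ j, x j) ∂P - ∫ x, cut R (⨆ j, x j) ∂P| ≤ C / R := by
  have hm : AEStronglyMeasurable (fun x : Fin m → ℝ => ⨆ j, x j) P :=
    continuous_top.measurable.aestronglyMeasurable
  have h1 : Integrable (fun x : Fin m → ℝ => ⨆ j, x j) P := by
    refine ((integrable_const (1 : ℝ)).add hi).mono' hm (ae_of_all _ fun x => ?_)
    have := top_sq_le x
    rw [Real.norm_eq_abs]
    have h2 : |⨆ j, x j| ≤ 1 + (⨆ j, x j) ^ 2 := by
      rw [← sq_abs]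
      nlinarith [sq_nonneg (|⨆ j, x j| - 1)]
    simp only [Pi.add_apply]
    linarith
  have h2 : Integrable (fun x : Fin m → ℝ => cut R (⨆ j, x j)) P := by
    refine (integrable_const R).mono' ?_ (ae_of_all _ fun x => ?_)
    · exact ((continuous_cut R).comp continuous_top).measurable.aestronglyMeasurable
    · exact cut_bdd hR.le _
  refine ⟨h1, ?_⟩
  rw [← integral_sub h1 h2]
  refine (abs_integral_le_integral_abs).trans ?_
  have h3 : ∫ x : Fin m → ℝ, (∑ j, x j ^ 2) / R ∂P = C / R := by rw [integral_div, hC]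
  rw [← h3]
  refine integral_mono (h1.sub h2).abs (hi.div_const _) fun x => ?_
  exact (cut_close hR _).trans (div_le_div_of_nonneg_right (top_sq_le x) hR.le)

end Mom

/-- Convergence of the integral of the maximum, from weak convergence and bounded second
moments. -/
lemma top_tendsto {m : ℕ} [Nonempty (Fin m)] {P : ℕ → ProbabilityMeasure (Fin m → ℝ)}
    {Q : ProbabilityMeasure (Fin m → ℝ)} (h : Tendsto P atTop (𝓝 Q)) {C : ℝ} (hC0 : 0 ≤ C)
    (hi : ∀ᶠ n in atTop, Integrable (fun x : Fin m → ℝ => ∑ j, x j ^ 2) (P n : Measure (Fin m → ℝ)) ∧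
      ∫ x : Fin m → ℝ, ∑ j, x j ^ 2 ∂(P n : Measure (Fin m → ℝ)) = C)
    (hQ : Integrable (fun x : Fin m → ℝ => ∑ j, x j ^ 2) (Q : Measure (Fin m → ℝ)) ∧
      ∫ x : Fin m → ℝ, ∑ j, x j ^ 2 ∂(Q : Measure (Fin m → ℝ)) = C) :
    Tendsto (fun n => ∫ x, (⨆ j, x j) ∂(P n : Measure (Fin m → ℝ))) atTop
      (𝓝 (∫ x, (⨆ j, x j) ∂(Q : Measure (Fin m → ℝ)))) := by
  rw [Metric.tendsto_atTop']
  intro ε hε
  set R := 4 * (C + 1) / ε with hR
  have hR0 : 0 < R := by positivity
  have hCR : C / R ≤ ε / 4 := by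
    rw [hR, div_le_iff₀ (by positivity)]
    have : ε / 4 * (4 * (C + 1) / ε) = C + 1 := by field_simp
    linarith
  let f : BoundedContinuousFunction (Fin m → ℝ) ℝ :=
    BoundedContinuousFunction.ofNormedAddCommGroup (fun x => cut R (⨆ j, x j))
      ((continuous_cut R).comp continuous_top) R (fun x => cut_bdd hR0.le _)
  have h1 := ProbabilityMeasure.tendsto_iff_forall_integral_tendsto.1 h f
  rw [Metric.tendsto_atTop'] at h1
  obtain ⟨N, hN⟩ := h1 (ε / 4) (by positivity)
  obtain ⟨N2, hN2⟩ := eventually_atTop.1 hi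
  refine ⟨max N N2, fun n hn => ?_⟩
  have a1 := hN n (lt_of_le_of_lt (le_max_left _ _) hn)
  have a2 := hN2 n (le_of_lt (lt_of_le_of_lt (le_max_right _ _) hn))
  have b1 := (top_cut a2.1 a2.2 hR0).2
  have b2 := (top_cut hQ.1 hQ.2 hR0).2
  rw [Real.dist_eq] at a1 ⊢
  have a1' : |∫ x, cut R (⨆ j, x j) ∂(P n : Measure (Fin m → ℝ)) -
      ∫ x, cut R (⨆ j, x j) ∂(Q : Measure (Fin m → ℝ))| < ε / 4 := a1
  rw [abs_lt] at a1' ⊢
  rw [abs_le] at b1 b2
  constructor <;> linarith

end Pool.Agent.Y628.FS
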